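import Pool.Agent.KR87.Base

set_option autoImplicit false

/-!
# LA34/Count: the number of orders with a long chain
-/

namespace Pool.LA34

open Finset Pool.KR87

/-- `s` is a chain of `P` -/
def Ch {V : Type} {m : ℕ} (s : Fin m → V) (P : SO V) : Prop := ∀ i j : Fin m, i < j → P.lt (s i) (s j)

theorem Ch.inj {V : Type} {m : ℕ} {s : Fin m → V} {P : SO V} (h : Ch s P) :
    Function.Injective s := by
  intro i j hij
  rcases lt_trichotomy i j with h1 | h1 | h1
  · have h2 := h i j h1
    rw [hij] at h2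
    exact absurd h2 (P.irr _)
  · exact h1
  · have h2 := h j i h1
    rw [hij] at h2
    exact absurd h2 (P.irr _)

theorem Ch.lt_iff {V : Type} {m : ℕ} {s : Fin m → V} {P : SO V} (h : Ch s P) (i j : Fin m) :
    P.lt (s i) (s j) ↔ i < j := by
  constructor
  · intro h1
    by_contra h2
    rcases (not_lt.1 h2).eq_or_lt with h3 | h3
    · rw [h3] at h1
      exact P.irr _ h1
    · exact P.irr _ (P.tr _ _ _ h1 (h j i h3))
  · exact h i j

/-- a down-set of `Fin m` is determined by its size -/
theorem mem_down {m : ℕ} (A : Finset (Fin m)) (hA : ∀ i ∈ A, ∀ j < i, j ∈ A) (i : Fin m) :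
    i ∈ A ↔ i.val < A.card := by
  constructor
  · intro hi
    have h1 : Finset.Iic i ⊆ A := by
      intro j hj
      rw [mem_Iic] at hj
      rcases hj.eq_or_lt with h2 | h2
      · rwa [h2]
      · exact hA i hi j h2
    have h2 := card_le_card h1
    rw [Fin.card_Iic] at h2
    omega
  · intro hi
    by_contra hn
    have h1 : A ⊆ Finset.Iio i := by
      intro j hj
      rw [mem_Iio]
      by_contra h2
      rcases (not_lt.1 h2).eq_or_lt with h3 | h3
      · exact hn (h3 ▸ hj)
      · exact hn (hA j hj i h3)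
    have h2 := card_le_card h1
    rw [Fin.card_Iio] at h2
    omega

/-- an up-set of `Fin m` is determined by its size -/
theorem mem_up {m : ℕ} (A : Finset (Fin m)) (hA : ∀ i ∈ A, ∀ j, i < j → j ∈ A) (i : Fin m) :
    i ∈ A ↔ m - A.card ≤ i.val := by
  have hi := i.isLt
  constructor
  · intro hi
    have h1 : Finset.Ici i ⊆ A := by
      intro j hj
      rw [mem_Ici] at hj
      rcases hj.eq_or_lt with h2 | h2
      · rwa [← h2]
      · exact hA i hi j h2
    have h2 := card_le_card h1
    rw [Fin.card_Ici] at h2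
    omega
  · intro hi
    by_contra hn
    have h1 : A ⊆ Finset.Ioi i := by
      intro j hj
      rw [mem_Ioi]
      by_contra h2
      rcases (not_lt.1 h2).eq_or_lt with h3 | h3
      · exact hn (h3 ▸ hj)
      · exact hn (hA j hj i h3)
    have h2 := card_le_card h1
    rw [Fin.card_Ioi] at h2
    have h3 : A.card ≤ m := (card_le_univ A).trans (by rw [Fintype.card_fin])
    omega

open Classical in
/-- the chain elements below `x` -/
noncomputable def lo {V : Type} {m : ℕ} (s : Fin m → V) (P : SO V) (x : V) : Finset (Fin m) :=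
  univ.filter fun i => P.lt (s i) x

open Classical in
/-- the chain elements above `x` -/
noncomputable def hi {V : Type} {m : ℕ} (s : Fin m → V) (P : SO V) (x : V) : Finset (Fin m) :=
  univ.filter fun i => P.lt x (s i)

theorem mem_lo {V : Type} {m : ℕ} {s : Fin m → V} {P : SO V} {x : V} {i : Fin m} :
    i ∈ lo s P x ↔ P.lt (s i) x := by
  classical
  unfold lo
  rw [mem_filter]
  exact ⟨fun h => h.2, fun h => ⟨mem_univ _, h⟩⟩

theorem mem_hi {V : Type} {m : ℕ} {s : Fin m → V} {P : SO V} {x : V} {i : Fin m} :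
    i ∈ hi s P x ↔ P.lt x (s i) := by
  classical
  unfold hi
  rw [mem_filter]
  exact ⟨fun h => h.2, fun h => ⟨mem_univ _, h⟩⟩

theorem card_lo_lt {V : Type} {m : ℕ} (s : Fin m → V) (P : SO V) (x : V) :
    (lo s P x).card < m + 1 := by
  have := card_le_univ (lo s P x)
  rw [Fintype.card_fin] at this
  omega

theorem card_hi_lt {V : Type} {m : ℕ} (s : Fin m → V) (P : SO V) (x : V) :
    (hi s P x).card < m + 1 := by
  have := card_le_univ (hi s P x)
  rw [Fintype.card_fin] at this
  omega

/-- the data of an order with the chain `s` -/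
noncomputable def dat {V : Type} {m : ℕ} (s : Fin m → V) (D : Finset V) (P : SO V) :
    SO {x // x ∉ D} × (({x // x ∉ D} → Fin (m + 1)) × ({x // x ∉ D} → Fin (m + 1))) :=
  (P.del D, fun x => ⟨(lo s P x).card, card_lo_lt s P x⟩,
    fun x => ⟨(hi s P x).card, card_hi_lt s P x⟩)

theorem dat_inj {V : Type} {m : ℕ} {s : Fin m → V} {D : Finset V}
    (hD : ∀ x, x ∈ D ↔ ∃ i, s i = x) {P P' : SO V} (h : Ch s P) (h' : Ch s P')
    (he : dat s D P = dat s D P') : P = P' := by
  have e1 : P.del D = P'.del D := congrArg Prod.fst he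
  have e2 : ∀ x : V, x ∉ D → (lo s P x).card = (lo s P' x).card := by
    intro x hx
    have := congrArg (fun d => (d.2.1 ⟨x, hx⟩ : Fin (m + 1)).val) he
    exact this
  have e3 : ∀ x : V, x ∉ D → (hi s P x).card = (hi s P' x).card := by
    intro x hx
    have := congrArg (fun d => (d.2.2 ⟨x, hx⟩ : Fin (m + 1)).val) he
    exact this
  have dlo : ∀ {R : SO V}, Ch s R → ∀ x, ∀ i ∈ lo s R x, ∀ j < i, j ∈ lo s R x := by
    intro R hR x i hi j hj
    rw [mem_lo] at hi ⊢
    exact R.tr _ _ _ (hR j i hj) hi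
  have dhi : ∀ {R : SO V}, Ch s R → ∀ x, ∀ i ∈ hi s R x, ∀ j, i < j → j ∈ hi s R x := by
    intro R hR x i hi j hj
    rw [mem_hi] at hi ⊢
    exact R.tr _ _ _ hi (hR i j hj)
  apply SO.ext
  funext x y
  apply propext
  by_cases hx : x ∈ D
  · obtain ⟨i, rfl⟩ := (hD x).1 hx
    by_cases hy : y ∈ D
    · obtain ⟨j, rfl⟩ := (hD y).1 hy
      rw [h.lt_iff, h'.lt_iff]
    · rw [← mem_lo, ← mem_lo, mem_down _ (dlo h y), mem_down _ (dlo h' y), e2 y hy]
  · by_cases hy : y ∈ D
    · obtain ⟨j, rfl⟩ := (hD y).1 hy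
      rw [← mem_hi, ← mem_hi, mem_up _ (dhi h x), mem_up _ (dhi h' x), e3 x hx]
    · have e4 : (P.del D).lt ⟨x, hx⟩ ⟨y, hy⟩ ↔ (P'.del D).lt ⟨x, hx⟩ ⟨y, hy⟩ := by rw [e1]
      exact e4

theorem cnt_ch_le {V : Type} [Fintype V] {m : ℕ} (s : Fin m → V) :
    cnt (Ch s) ≤ pn (Fintype.card V - m) * (((m + 1) ^ (Fintype.card V - m)) *
      ((m + 1) ^ (Fintype.card V - m))) := by
  classical
  by_cases hs : Function.Injective s
  · set D : Finset V := univ.image s with hD
    have hDm : D.card = m := by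
      rw [hD, card_image_of_injective _ hs, card_univ, Fintype.card_fin]
    have hcard : Fintype.card {x // x ∉ D} = Fintype.card V - m := by
      rw [Fintype.card_subtype_compl, Fintype.card_coe, hDm]
    have h1 := cnt_le_of_injOn (Ch s) (dat s D) univ (fun _ _ => mem_univ _)
      (fun P P' h h' he => dat_inj (fun x => by simp [hD]) h h' he)
    refine h1.trans (le_of_eq ?_)
    rw [card_univ, Fintype.card_prod, Fintype.card_prod, Fintype.card_fun, Fintype.card_fin,
      card_SO, hcard]
  · have : cnt (Ch s) = 0 := by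
      unfold cnt
      rw [card_eq_zero, filter_eq_empty_iff]
      intro P _ hP
      exact hs hP.inj
    rw [this]
    exact Nat.zero_le _

/-- COUNT: orders on `n` points with a chain of `m` elements -/
theorem cnt_chain_le (n m : ℕ) : cnt (fun P : SO (Fin n) => ∃ s : Fin m → Fin n, Ch s P) ≤
    n ^ m * (pn (n - m) * (((m + 1) ^ (n - m)) * ((m + 1) ^ (n - m)))) := by
  have h := cnt_exists_le (V := Fin n) (ι := Fin m → Fin n) (fun s P => Ch s P)
    (pn (n - m) * (((m + 1) ^ (n - m)) * ((m + 1) ^ (n - m)))) (fun s => by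
      have := cnt_ch_le s
      rwa [Fintype.card_fin] at this)
  rwa [Fintype.card_fun, Fintype.card_fin, Fintype.card_fin] at h

end Pool.LA34
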