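import Pool.Agent.LA34.OmS
import Pool.Agent.HB45.Defs2

set_option autoImplicit false

/-!
# LA34/Half: a level with few descents has small weight under small tilts (and the mirror statement)
-/

namespace Pool.LA34

open Pool.HB45 Pool.SC45

variable {N : ℕ} {Q : Rel (N + 1)} {lab κ : Fin (N + 1) → ℕ}

theorem des_le' (lab : Fin (N + 1) → ℕ) (g : Equiv.Perm (Fin (N + 1))) : des lab g ≤ N := by
  unfold des
  refine (Finset.card_filter_le _ _).trans ?_
  simp

theorem w_le_Om (hn : Nat' Q lab) (i : ℕ) : w Q lab i ≤ Om Q i := by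
  classical
  rw [Om_eq37 hn]
  unfold w
  rw [Finset.card_filter]
  refine Finset.sum_le_sum fun g _ => ?_
  split_ifs with h
  · rw [h]
    have : i + N + 1 - i = N + 1 := by omega
    rw [this, Nat.choose_self]
  · exact Nat.zero_le _

theorem w_le_Os (hn : Nat' Q lab) (k m : ℕ) (hk : k + m = N) : w Q lab k ≤ Os Q m := by
  classical
  rw [Os_eq hn]
  unfold w
  rw [Finset.card_filter]
  refine Finset.sum_le_sum fun g _ => ?_
  split_ifs with h
  · rw [h]
    have : m + 1 + k = N + 1 := by omega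
    rw [this, Nat.choose_self]
  · exact Nat.zero_le _

theorem Om_le_cnt (hn : Nat' Q lab) (m : ℕ) (hm : m ≤ N + 1) :
    Om Q m ≤ 4 ^ (N + 1) * ((LE Q).filter fun g => des lab g ≤ m).card := by
  classical
  rw [Om_eq37 hn, Finset.card_filter, Finset.mul_sum]
  refine Finset.sum_le_sum fun g _ => ?_
  split_ifs with h
  · calc (m + N + 1 - des lab g).choose (N + 1) ≤ 2 ^ (m + N + 1 - des lab g) := Nat.choose_le_two_pow _ _
      _ ≤ 2 ^ (2 * (N + 1)) := Nat.pow_le_pow_right (by norm_num) (by omega)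
      _ = 4 ^ (N + 1) * 1 := by rw [pow_mul, mul_one]; norm_num
  · rw [Nat.choose_eq_zero_of_lt (by omega)]
    exact Nat.zero_le _

theorem Os_le_cnt (hn : Nat' Q lab) (m k : ℕ) (hm : k + m = N) :
    Os Q m ≤ 4 ^ (N + 1) * ((LE Q).filter fun g => k ≤ des lab g).card := by
  classical
  rw [Os_eq hn, Finset.card_filter, Finset.mul_sum]
  refine Finset.sum_le_sum fun g _ => ?_
  have hd := des_le' lab g
  split_ifs with h
  · calc (m + 1 + des lab g).choose (N + 1) ≤ 2 ^ (m + 1 + des lab g) := Nat.choose_le_two_pow _ _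
      _ ≤ 2 ^ (2 * (N + 1)) := Nat.pow_le_pow_right (by norm_num) (by omega)
      _ = 4 ^ (N + 1) * 1 := by rw [pow_mul, mul_one]; norm_num
  · rw [Nat.choose_eq_zero_of_lt (by omega)]
    exact Nat.zero_le _

theorem cnt_low (Q : Rel (N + 1)) (lab : Fin (N + 1) → ℕ) (m : ℕ) (r : ℝ) (hr : 0 ≤ r) (hr1 : r ≤ 1) :
    (((LE Q).filter fun g => des lab g ≤ m).card : ℝ) * r ^ m ≤ Wr Q lab r := by
  classical
  unfold Wr
  rw [Finset.card_eq_sum_ones, Nat.cast_sum, Finset.sum_mul, Finset.sum_filter]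
  refine Finset.sum_le_sum fun g _ => ?_
  split_ifs with h
  · rw [Nat.cast_one, one_mul]
    exact pow_le_pow_of_le_one hr hr1 h
  · positivity

theorem cnt_high (Q : Rel (N + 1)) (lab : Fin (N + 1) → ℕ) (m : ℕ) (r : ℝ) (hr1 : 1 ≤ r) :
    (((LE Q).filter fun g => m ≤ des lab g).card : ℝ) * r ^ m ≤ Wr Q lab r := by
  classical
  unfold Wr
  rw [Finset.card_eq_sum_ones, Nat.cast_sum, Finset.sum_mul, Finset.sum_filter]
  refine Finset.sum_le_sum fun g _ => ?_
  split_ifs with h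
  · rw [Nat.cast_one, one_mul]
    exact pow_le_pow_right₀ hr1 h
  · positivity

theorem w_zero (Q : Rel (N + 1)) (lab : Fin (N + 1) → ℕ) (i : ℕ) (hi : N < i) : w Q lab i = 0 := by
  classical
  unfold w
  rw [Finset.card_eq_zero, Finset.filter_eq_empty_iff]
  intro g _ h
  have := des_le' lab g
  omega

/-- `w_i r^i ≤ 8^n r^⌈i/2⌉ W(r)` for `0 ≤ r ≤ 1` -/
theorem half_low (hn : Nat' Q lab) (i : ℕ) (r : ℝ) (hr : 0 ≤ r) (hr1 : r ≤ 1) :
    (w Q lab i : ℝ) * r ^ i ≤ 8 ^ (N + 1) * r ^ ((i + 1) / 2) * Wr Q lab r := by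
  classical
  have hW : 0 ≤ Wr Q lab r := by
    unfold Wr
    exact Finset.sum_nonneg fun g _ => pow_nonneg hr _
  by_cases hi : N < i
  · rw [w_zero Q lab i hi]
    simp only [Nat.cast_zero, zero_mul]
    positivity
  have h1 : w Q lab i ≤ 2 ^ (N + 1) * (4 ^ (N + 1) *
      ((LE Q).filter fun g => des lab g ≤ i / 2).card) :=
    (w_le_Om hn i).trans ((Om_half Q i).trans
      (Nat.mul_le_mul_left _ (Om_le_cnt hn (i / 2) (by omega))))
  have h2 : (w Q lab i : ℝ) ≤ 8 ^ (N + 1) * (((LE Q).filter fun g => des lab g ≤ i / 2).card : ℝ) := by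
    have h3 : (2 : ℕ) ^ (N + 1) * (4 ^ (N + 1) *
      ((LE Q).filter fun g => des lab g ≤ i / 2).card) = 8 ^ (N + 1) *
      ((LE Q).filter fun g => des lab g ≤ i / 2).card := by
      rw [← mul_assoc, ← mul_pow]
      norm_num
    rw [h3] at h1
    exact_mod_cast h1
  have h4 : r ^ i = r ^ (i / 2) * r ^ ((i + 1) / 2) := by
    rw [← pow_add]
    congr 1
    omega
  calc (w Q lab i : ℝ) * r ^ i
      ≤ 8 ^ (N + 1) * (((LE Q).filter fun g => des lab g ≤ i / 2).card : ℝ) * r ^ i :=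
        mul_le_mul_of_nonneg_right h2 (pow_nonneg hr _)
    _ = 8 ^ (N + 1) * r ^ ((i + 1) / 2) *
        ((((LE Q).filter fun g => des lab g ≤ i / 2).card : ℝ) * r ^ (i / 2)) := by
        rw [h4]
        ring
    _ ≤ 8 ^ (N + 1) * r ^ ((i + 1) / 2) * Wr Q lab r :=
        mul_le_mul_of_nonneg_left (cnt_low Q lab _ r hr hr1) (by positivity)

/-- `w_k r^k r^⌈t/2⌉ ≤ 8^n W(r)` for `r ≥ 1`, `k + l + t = N`, no chain of more than `l + 1` letters -/
theorem half_high {l : ℕ} (hn : Nat' Q lab) (hκ : Lev (l + 1) Q κ) (k t : ℕ) (hk : k + (l + t) = N)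
    (r : ℝ) (hr1 : 1 ≤ r) :
    (w Q lab k : ℝ) * r ^ k * r ^ ((t + 1) / 2) ≤ 8 ^ (N + 1) * Wr Q lab r := by
  classical
  have h1 : w Q lab k ≤ 2 ^ (N + 1) * (4 ^ (N + 1) *
      ((LE Q).filter fun g => k + (t + 1) / 2 ≤ des lab g).card) :=
    (w_le_Os hn k (l + t) hk).trans ((Os_half hκ t).trans
      (Nat.mul_le_mul_left _ (Os_le_cnt hn (l + t / 2) (k + (t + 1) / 2) (by omega))))
  have h2 : (w Q lab k : ℝ) ≤ 8 ^ (N + 1) *
      (((LE Q).filter fun g => k + (t + 1) / 2 ≤ des lab g).card : ℝ) := by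
    have h3 : (2 : ℕ) ^ (N + 1) * (4 ^ (N + 1) *
      ((LE Q).filter fun g => k + (t + 1) / 2 ≤ des lab g).card) = 8 ^ (N + 1) *
      ((LE Q).filter fun g => k + (t + 1) / 2 ≤ des lab g).card := by
      rw [← mul_assoc, ← mul_pow]
      norm_num
    rw [h3] at h1
    exact_mod_cast h1
  calc (w Q lab k : ℝ) * r ^ k * r ^ ((t + 1) / 2) = (w Q lab k : ℝ) * r ^ (k + (t + 1) / 2) := by
        rw [pow_add]
        ring
    _ ≤ 8 ^ (N + 1) * (((LE Q).filter fun g => k + (t + 1) / 2 ≤ des lab g).card : ℝ) *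
        r ^ (k + (t + 1) / 2) := mul_le_mul_of_nonneg_right h2 (by positivity)
    _ = 8 ^ (N + 1) * ((((LE Q).filter fun g => k + (t + 1) / 2 ≤ des lab g).card : ℝ) *
        r ^ (k + (t + 1) / 2)) := by ring
    _ ≤ 8 ^ (N + 1) * Wr Q lab r :=
        mul_le_mul_of_nonneg_left (cnt_high Q lab _ r hr1) (by positivity)

end Pool.LA34
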