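import Pool.Agent.LA34.Num
import Pool.Agent.KR87U.Classes
import Pool.Agent.LC34.Final

set_option autoImplicit false

/-!
# LA34/Main: almost all orders, exceptional share `2 ^ (-c n ^ 2)`
-/

namespace Pool.LA34

open Finset Pool.KR87

/-- a chain enumerated in increasing order (by a natural labelling) -/
theorem exists_enum {α : Type} [PartialOrder α] {n : ℕ} (f : α ≃ Fin n)
    (hf : ∀ x y : α, x < y → f x < f y) (t : Finset α) (ht : IsChain (· ≤ ·) (t : Set α)) (m : ℕ)
    (hm : m ≤ t.card) : ∃ s : Fin m → α, ∀ i j : Fin m, i < j → s i < s j := by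
  classical
  set u : Finset (Fin n) := t.map f.toEmbedding with hu
  have hucard : u.card = t.card := by rw [hu, card_map]
  have hmu : m ≤ u.card := by rw [hucard]; exact hm
  refine ⟨fun i => f.symm (u.orderEmbOfFin rfl (Fin.castLE hmu i)), fun i j hij => ?_⟩
  set a := u.orderEmbOfFin rfl (Fin.castLE hmu i) with ha
  set b := u.orderEmbOfFin rfl (Fin.castLE hmu j) with hb
  have hab : a < b := by
    rw [ha, hb]
    exact (u.orderEmbOfFin rfl).strictMono (by
      rw [Fin.lt_def]
      exact hij)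
  have hat : f.symm a ∈ t := by
    have h1 : a ∈ u := Finset.orderEmbOfFin_mem u rfl _
    rw [hu, mem_map] at h1
    obtain ⟨x, hx, hxa⟩ := h1
    have : f x = a := hxa
    rwa [← this, Equiv.symm_apply_apply]
  have hbt : f.symm b ∈ t := by
    have h1 : b ∈ u := Finset.orderEmbOfFin_mem u rfl _
    rw [hu, mem_map] at h1
    obtain ⟨x, hx, hxa⟩ := h1
    have : f x = b := hxa
    rwa [← this, Equiv.symm_apply_apply]
  have hne : f.symm a ≠ f.symm b := fun h => hab.ne (f.symm.injective h)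
  rcases ht hat hbt hne with h | h
  · exact lt_of_le_of_ne h hne
  · have h2 := hf _ _ (lt_of_le_of_ne h (Ne.symm hne))
    rw [Equiv.apply_symm_apply, Equiv.apply_symm_apply] at h2
    exact absurd h2 (not_lt.2 hab.le)

theorem cnt_eq_zero {V : Type} [Finite V] {p : SO V → Prop} (h : ∀ P, ¬ p P) : cnt p = 0 := by
  classical
  unfold cnt
  rw [card_eq_zero, filter_eq_empty_iff]
  exact fun P _ => h P

/-- GENERAL FORM: a property of orders on `Fin n` which forces a chain of at least `c n` elements -/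
theorem classes_share (Bad : ∀ n : ℕ, PartialOrder (Fin n) → Prop) (c : ℝ) (hc : 0 < c)
    (hBad : ∀ n P, Bad n P → ∃ s : Fin ⌈c * n⌉₊ → Fin n, Ch s (soOf P)) :
    ∃ C : ℝ, ∀ (n : ℕ) (G : Subgroup (Equiv.Perm (Fin n))),
      (Nat.card {q : Quotient (isoG G) // ∃ P : PartialOrder (Fin n),
          Quotient.mk (isoG G) P = q ∧ Bad n P} : ℝ) ≤
        C * (2 : ℝ) ^ (-(c / 16) * (n : ℝ) ^ 2) * Nat.card (Quotient (isoG G)) := by
  classical
  obtain ⟨N, hN⟩ := num c hc
  refine ⟨(2 : ℝ) ^ (c / 16 * (N : ℝ) ^ 2), fun n G => ?_⟩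
  have hfin : Finite (PartialOrder (Fin n)) :=
    Finite.of_injective (fun P : PartialOrder (Fin n) => P.le) (fun P Q h => by
      apply PartialOrder.ext
      intro x y
      exact iff_of_eq (congrFun (congrFun h x) y))
  set X := Nat.card {q : Quotient (isoG G) // ∃ P : PartialOrder (Fin n),
          Quotient.mk (isoG G) P = q ∧ Bad n P} with hX
  set Y := Nat.card (Quotient (isoG G)) with hY
  have hC1 : (1 : ℝ) ≤ (2 : ℝ) ^ (c / 16 * (N : ℝ) ^ 2) :=
    Real.one_le_rpow (by norm_num) (by positivity)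
  rcases le_or_gt N n with hn | hn
  · obtain ⟨hf, hcnt⟩ := hN n hn
    set m := ⌈c * n⌉₊ with hm
    -- bad classes and bad orders
    have h1 : X ≤ cnt (fun P : SO (Fin n) => ∃ s : Fin m → Fin n, Ch s P) := by
      have e : Nat.card {P : SO (Fin n) // ∃ s : Fin m → Fin n, Ch s P} =
          cnt (fun P : SO (Fin n) => ∃ s : Fin m → Fin n, Ch s P) := by
        rw [Nat.card_eq_fintype_card, Fintype.card_subtype]
        unfold cnt
        congr 1
        ext P
        simp
      rw [← e]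
      refine Nat.card_le_card_of_injective
        (fun q : {q : Quotient (isoG G) // ∃ P : PartialOrder (Fin n),
          Quotient.mk (isoG G) P = q ∧ Bad n P} =>
          (⟨soOf q.2.choose, hBad n _ q.2.choose_spec.2⟩ :
            {P : SO (Fin n) // ∃ s : Fin m → Fin n, Ch s P})) ?_
      intro q q' h
      have h2 : soOf q.2.choose = soOf q'.2.choose := congrArg Subtype.val h
      have h3 : q.2.choose = q'.2.choose := by
        have h4 : (q.2.choose).lt = (q'.2.choose).lt := congrArg SO.lt h2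
        apply PartialOrder.ext
        intro x y
        have h5 : ∀ R : PartialOrder (Fin n), R.le x y ↔ x = y ∨ R.lt x y := fun R =>
          @le_iff_eq_or_lt _ R x y
        refine (h5 q.2.choose).trans (Iff.trans ?_ (h5 q'.2.choose).symm)
        rw [h4]
      apply Subtype.ext
      rw [← q.2.choose_spec.1, ← q'.2.choose_spec.1, h3]
    have h2 : (cnt (fun P : SO (Fin n) => ∃ s : Fin m → Fin n, Ch s P) : ℝ) ≤
        (2 : ℝ) ^ (-(c / 8) * (n : ℝ) ^ 2) * pn n := by
      rcases le_or_gt m n with hmn | hmn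
      · exact hcnt m (Nat.le_ceil _) hmn
      · have h3 : cnt (fun P : SO (Fin n) => ∃ s : Fin m → Fin n, Ch s P) = 0 := by
          apply cnt_eq_zero
          rintro P ⟨s, hs⟩
          have h4 := Fintype.card_le_of_injective s hs.inj
          rw [Fintype.card_fin, Fintype.card_fin] at h4
          omega
        rw [h3, Nat.cast_zero]
        positivity
    have h3 : (pn n : ℝ) ≤ (Y : ℝ) * (n.factorial : ℕ) := by
      have h4 := pn_le_classes (V := Fin n) G
      rw [Fintype.card_fin] at h4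
      have h5 : Nat.card G ≤ n.factorial := by
        have h6 := Nat.card_le_card_of_injective (fun g : G => (g : Equiv.Perm (Fin n)))
          Subtype.val_injective
        rwa [Nat.card_eq_fintype_card (α := Equiv.Perm (Fin n)), Fintype.card_perm,
          Fintype.card_fin] at h6
      exact_mod_cast h4.trans (Nat.mul_le_mul_left _ h5)
    have hY0 : (0 : ℝ) ≤ Y := Nat.cast_nonneg _
    calc (X : ℝ) ≤ (cnt (fun P : SO (Fin n) => ∃ s : Fin m → Fin n, Ch s P) : ℝ) := by
          exact_mod_cast h1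
      _ ≤ (2 : ℝ) ^ (-(c / 8) * (n : ℝ) ^ 2) * pn n := h2
      _ ≤ (2 : ℝ) ^ (-(c / 8) * (n : ℝ) ^ 2) * ((Y : ℝ) * (2 : ℝ) ^ (c / 16 * (n : ℝ) ^ 2)) :=
          mul_le_mul_of_nonneg_left (h3.trans (mul_le_mul_of_nonneg_left hf hY0)) (by positivity)
      _ = 1 * (2 : ℝ) ^ (-(c / 16) * (n : ℝ) ^ 2) * Y := by
          have e : (2 : ℝ) ^ (-(c / 8) * (n : ℝ) ^ 2) * (2 : ℝ) ^ (c / 16 * (n : ℝ) ^ 2) =
              (2 : ℝ) ^ (-(c / 16) * (n : ℝ) ^ 2) := by
            rw [← Real.rpow_add (by norm_num)]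
            congr 1
            ring
          rw [← e]
          ring
      _ ≤ (2 : ℝ) ^ (c / 16 * (N : ℝ) ^ 2) * (2 : ℝ) ^ (-(c / 16) * (n : ℝ) ^ 2) * Y := by
          refine mul_le_mul_of_nonneg_right (mul_le_mul_of_nonneg_right hC1 (by positivity)) hY0
  · have h1 : X ≤ Y := Nat.card_le_card_of_injective (fun q => q.1) Subtype.val_injective
    have h2 : (1 : ℝ) ≤ (2 : ℝ) ^ (c / 16 * (N : ℝ) ^ 2) * (2 : ℝ) ^ (-(c / 16) * (n : ℝ) ^ 2) := by
      rw [← Real.rpow_add (by norm_num)]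
      apply Real.one_le_rpow (by norm_num)
      have h3 : (n : ℝ) ^ 2 ≤ (N : ℝ) ^ 2 :=
        pow_le_pow_left₀ (Nat.cast_nonneg _) (by exact_mod_cast hn.le) 2
      have h4 := mul_le_mul_of_nonneg_left h3 (show 0 ≤ c / 16 by positivity)
      linarith
    calc (X : ℝ) ≤ Y := by exact_mod_cast h1
      _ = 1 * Y := (one_mul _).symm
      _ ≤ _ := mul_le_mul_of_nonneg_right h2 (Nat.cast_nonneg _)

/-- the linear height theorem for a partial order given as a term: an exception has a long chain -/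
theorem long_chain : ∃ c : ℝ, 0 < c ∧ ∀ (n : ℕ) (P : PartialOrder (Fin n)) (f : Fin n ≃ Fin n),
    (∀ x y : Fin n, P.lt x y → f x < f y) →
    (¬ ∃ m : ℕ, ∀ k : ℕ, (k < m → @Pool.HB45.dn (Fin n) P n f k ≤ @Pool.HB45.dn (Fin n) P n f (k + 1)) ∧
      (m ≤ k → @Pool.HB45.dn (Fin n) P n f (k + 1) ≤ @Pool.HB45.dn (Fin n) P n f k)) →
    n = 0 ∨ ∃ s : Fin ⌈c * n⌉₊ → Fin n, Ch s (soOf P) := by
  obtain ⟨c, hc, h⟩ := Pool.LC34.linear_chains
  refine ⟨c, hc, fun n P f hf hnot => ?_⟩
  rcases Nat.eq_zero_or_pos n with h0 | hn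
  · exact Or.inl h0
  · right
    have h1 := @h n hn (Fin n) _ P f hf
    have h2 : ¬ ∀ s : Finset (Fin n), @IsChain (Fin n) P.le (s : Set (Fin n)) →
        (s.card : ℝ) ≤ c * n := fun hs => hnot (h1 hs)
    push Not at h2
    obtain ⟨t, ht, htc⟩ := h2
    obtain ⟨s, hs⟩ := @exists_enum (Fin n) P n f hf t ht ⌈c * n⌉₊ (Nat.ceil_le.2 htc.le)
    exact ⟨s, hs⟩

end Pool.LA34
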