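import Pool.Agent.LA34.Count
import Pool.Agent.KR87.Upper
import Pool.Agent.KR87.Low

set_option autoImplicit false

/-!
# LA34/Num: orders with a chain of at least `c n` elements are a share of at most `2 ^ (-(c / 8) n ^ 2)`
-/

namespace Pool.LA34

open Finset Pool.KR87

/-- `log_2 (n + 1) ≤ ε n` for large `n` -/
theorem logb_small (ε : ℝ) (hε : 0 < ε) : ∃ N : ℕ, ∀ n ≥ N, Real.logb 2 ((n : ℝ) + 1) ≤ ε * n := by
  have h1 := Real.isLittleO_log_id_atTop.def (show 0 < ε * Real.log 2 / 2 by positivity)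
  have h2 := (Filter.tendsto_atTop_add_const_right _ (1 : ℝ)
    tendsto_natCast_atTop_atTop).eventually h1
  obtain ⟨N0, hN0⟩ := Filter.eventually_atTop.1 h2
  refine ⟨max N0 1, fun n hn => ?_⟩
  have h4 := hN0 n ((le_max_left _ _).trans hn)
  have hn1 : (1 : ℝ) ≤ n := by exact_mod_cast (le_max_right _ _).trans hn
  have hp : (0 : ℝ) ≤ (n : ℝ) + 1 := by positivity
  rw [Real.norm_eq_abs, Real.norm_eq_abs, id, abs_of_nonneg hp] at h4
  have h5 := (le_abs_self _).trans h4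
  have hl2 : 0 < Real.log 2 := Real.log_pos (by norm_num)
  unfold Real.logb
  rw [div_le_iff₀ hl2]
  have h6 : ε * Real.log 2 / 2 * ((n : ℝ) + 1) ≤ ε * Real.log 2 / 2 * (2 * n) :=
    mul_le_mul_of_nonneg_left (by linarith) (by positivity)
  calc Real.log ((n : ℝ) + 1) ≤ ε * Real.log 2 / 2 * (2 * n) := h5.trans h6
    _ = ε * n * Real.log 2 := by ring

theorem two_logb (n : ℕ) : (2 : ℝ) ^ Real.logb 2 ((n : ℝ) + 1) = (n : ℝ) + 1 :=
  Real.rpow_logb (by norm_num) (by norm_num) (by positivity)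

theorem num (c : ℝ) (hc : 0 < c) : ∃ N : ℕ, ∀ n ≥ N,
    ((n.factorial : ℕ) : ℝ) ≤ (2 : ℝ) ^ (c / 16 * (n : ℝ) ^ 2) ∧
    ∀ m : ℕ, c * n ≤ m → m ≤ n →
    (cnt (fun P : SO (Fin n) => ∃ s : Fin m → Fin n, Ch s P) : ℝ) ≤
      (2 : ℝ) ^ (-(c / 8) * (n : ℝ) ^ 2) * pn n := by
  obtain ⟨C, hC, hU⟩ := pn_upper
  obtain ⟨N1, hL⟩ := pn_lower
  obtain ⟨N2, h2⟩ := logb_small (c / 80) (by positivity)
  obtain ⟨N3, h3⟩ := exists_nat_ge ((|Real.logb 2 C| + 3) / (c / 80))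
  refine ⟨max (max N1 N2) (max N3 1), fun n hn => ?_⟩
  have g1 : N1 ≤ n := ((le_max_left _ _).trans (le_max_left _ _)).trans hn
  have g2 : N2 ≤ n := ((le_max_right _ _).trans (le_max_left _ _)).trans hn
  have g3 : N3 ≤ n := ((le_max_left _ _).trans (le_max_right _ _)).trans hn
  have g4 : 1 ≤ n := ((le_max_right _ _).trans (le_max_right _ _)).trans hn
  have hn1 : (1 : ℝ) ≤ n := by exact_mod_cast g4
  obtain ⟨L, hLd⟩ : ∃ L, L = Real.logb 2 ((n : ℝ) + 1) := ⟨_, rfl⟩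
  have e2 := h2 n g2
  rw [← hLd] at e2
  have eL : (2 : ℝ) ^ L = (n : ℝ) + 1 := by rw [hLd]; exact two_logb n
  have hL0 : 0 ≤ L := by
    rw [hLd]
    exact Real.logb_nonneg (by norm_num) (by linarith)
  obtain ⟨K, hK⟩ : ∃ K, K = Real.logb 2 C := ⟨_, rfl⟩
  have eK : (2 : ℝ) ^ K = C := by rw [hK]; exact Real.rpow_logb (by norm_num) (by norm_num) hC
  have hK3 : K + 3 ≤ c / 80 * n := by
    have h4 : (|Real.logb 2 C| + 3) / (c / 80) ≤ n := h3.trans (by exact_mod_cast g3)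
    rw [div_le_iff₀ (by positivity)] at h4
    have h5 := le_abs_self K
    rw [hK] at h5 ⊢
    linarith
  have hnn : (n : ℝ) ≤ (n : ℝ) ^ 2 := by nlinarith
  -- `(n + 1) ^ n = 2 ^ (L n)`
  have epow : ((n : ℝ) + 1) ^ n = (2 : ℝ) ^ (L * n) := by
    rw [Real.rpow_mul (by norm_num), eL, Real.rpow_natCast]
  have hLn : L * n ≤ c / 80 * (n : ℝ) ^ 2 := by nlinarith
  refine ⟨?_, fun m hm hmn => ?_⟩
  · have h4 : ((n.factorial : ℕ) : ℝ) ≤ ((n : ℝ) + 1) ^ n := by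
      have h5 : n.factorial ≤ (n + 1) ^ n :=
        (Nat.factorial_le_pow n).trans (Nat.pow_le_pow_left (Nat.le_succ n) n)
      exact_mod_cast h5
    rw [epow] at h4
    refine h4.trans (Real.rpow_le_rpow_of_exponent_le (by norm_num) ?_)
    have : 0 ≤ c * (n : ℝ) ^ 2 := by positivity
    linarith
  · have hm0 : (0 : ℝ) ≤ m := Nat.cast_nonneg m
    have hmn' : (m : ℝ) ≤ n := by exact_mod_cast hmn
    have hcast : ((n - m : ℕ) : ℝ) = (n : ℝ) - m := by rw [Nat.cast_sub hmn]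
    have c1 : (cnt (fun P : SO (Fin n) => ∃ s : Fin m → Fin n, Ch s P) : ℝ) ≤
        (n : ℝ) ^ m * (pn (n - m) * (((m : ℝ) + 1) ^ (n - m) * ((m : ℝ) + 1) ^ (n - m))) := by
      exact_mod_cast cnt_chain_le n m
    have c2 : (n : ℝ) ^ m ≤ (2 : ℝ) ^ (L * n) := by
      rw [← epow]
      calc (n : ℝ) ^ m ≤ ((n : ℝ) + 1) ^ m := pow_le_pow_left₀ (by linarith) (by linarith) m
        _ ≤ ((n : ℝ) + 1) ^ n := pow_le_pow_right₀ (by linarith) hmn
    have c3 : ((m : ℝ) + 1) ^ (n - m) ≤ (2 : ℝ) ^ (L * n) := by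
      rw [← epow]
      calc ((m : ℝ) + 1) ^ (n - m) ≤ ((n : ℝ) + 1) ^ (n - m) :=
            pow_le_pow_left₀ (by linarith) (by linarith) _
        _ ≤ ((n : ℝ) + 1) ^ n := pow_le_pow_right₀ (by linarith) (Nat.sub_le n m)
    have c4 : (pn (n - m) : ℝ) ≤ (2 : ℝ) ^ (K + ((n : ℝ) ^ 2 / 4 - c / 4 * (n : ℝ) ^ 2 +
        3 * n / 2)) := by
      rw [Real.rpow_add (by norm_num), eK]
      refine (hU (n - m)).trans (mul_le_mul_of_nonneg_left ?_ hC.le)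
      apply Real.rpow_le_rpow_of_exponent_le (by norm_num)
      rw [hcast]
      have h6 : c * (n : ℝ) * n ≤ m * n := mul_le_mul_of_nonneg_right hm (by linarith)
      have h7 : (m : ℝ) * m ≤ m * n := mul_le_mul_of_nonneg_left hmn' hm0
      nlinarith
    have hA : (0 : ℝ) < (2 : ℝ) ^ (L * n) := by positivity
    have c5 : (n : ℝ) ^ m * (pn (n - m) * (((m : ℝ) + 1) ^ (n - m) * ((m : ℝ) + 1) ^ (n - m))) ≤
        (2 : ℝ) ^ (L * n) * ((2 : ℝ) ^ (K + ((n : ℝ) ^ 2 / 4 - c / 4 * (n : ℝ) ^ 2 +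
        3 * n / 2)) * ((2 : ℝ) ^ (L * n) * (2 : ℝ) ^ (L * n))) := by
      have p1 : 0 ≤ ((m : ℝ) + 1) ^ (n - m) := by positivity
      have p2 : (0 : ℝ) ≤ pn (n - m) := Nat.cast_nonneg _
      have q1 : ((m : ℝ) + 1) ^ (n - m) * ((m : ℝ) + 1) ^ (n - m) ≤
          (2 : ℝ) ^ (L * n) * (2 : ℝ) ^ (L * n) := mul_le_mul c3 c3 p1 hA.le
      have q2 := mul_le_mul c4 q1 (mul_nonneg p1 p1) (by positivity)
      exact mul_le_mul c2 q2 (mul_nonneg p2 (mul_nonneg p1 p1)) hA.le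
    have c6 : (2 : ℝ) ^ ((n : ℝ) ^ 2 / 4 + 3 * n / 2) ≤ (2 : ℝ) ^ (3 + 2 * L) * pn n := by
      have h7 := hL n g1
      have h8 : (2 : ℝ) ^ (3 + 2 * L) = 8 * ((n : ℝ) + 1) ^ 2 := by
        rw [Real.rpow_add (by norm_num), mul_comm 2 L, Real.rpow_mul (by norm_num), eL]
        norm_num
      rw [h8]
      exact h7
    have c7 : (2 : ℝ) ^ (L * n) * ((2 : ℝ) ^ (K + ((n : ℝ) ^ 2 / 4 - c / 4 * (n : ℝ) ^ 2 +
        3 * n / 2)) * ((2 : ℝ) ^ (L * n) * (2 : ℝ) ^ (L * n))) =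
        (2 : ℝ) ^ (3 * (L * n) + K - c / 4 * (n : ℝ) ^ 2) *
          (2 : ℝ) ^ ((n : ℝ) ^ 2 / 4 + 3 * n / 2) := by
      rw [← Real.rpow_add (by norm_num), ← Real.rpow_add (by norm_num),
        ← Real.rpow_add (by norm_num), ← Real.rpow_add (by norm_num)]
      congr 1
      ring
    have hp : (0 : ℝ) ≤ pn n := Nat.cast_nonneg _
    calc (cnt (fun P : SO (Fin n) => ∃ s : Fin m → Fin n, Ch s P) : ℝ) ≤ _ := c1
      _ ≤ _ := c5
      _ = _ := c7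
      _ ≤ (2 : ℝ) ^ (3 * (L * n) + K - c / 4 * (n : ℝ) ^ 2) * ((2 : ℝ) ^ (3 + 2 * L) * pn n) :=
          mul_le_mul_of_nonneg_left c6 (by positivity)
      _ = (2 : ℝ) ^ (3 * (L * n) + K - c / 4 * (n : ℝ) ^ 2 + (3 + 2 * L)) * pn n := by
          rw [Real.rpow_add (by norm_num : (0 : ℝ) < 2) (3 * (L * n) + K - c / 4 * (n : ℝ) ^ 2)]
          ring
      _ ≤ (2 : ℝ) ^ (-(c / 8) * (n : ℝ) ^ 2) * pn n := by
          refine mul_le_mul_of_nonneg_right ?_ hp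
          apply Real.rpow_le_rpow_of_exponent_le (by norm_num)
          have h9 : c / 80 * n ≤ c / 80 * (n : ℝ) ^ 2 :=
            mul_le_mul_of_nonneg_left hnn (by positivity)
          have h10 : 0 ≤ c * (n : ℝ) ^ 2 := by positivity
          linarith

end Pool.LA34
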