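import Pool.Agent.SC45.Defs
import Mathlib.Combinatorics.SetFamily.FourFunctions

set_option autoImplicit false

/-!
# LA34/OmLC: the numbers of order preserving maps to chains are log-concave (Daykin inequality)
-/

namespace Pool.LA34

open Pool.HB45 Pool.SC45
open scoped FinsetFamily

/-- maps with values in `[a, b]`, monotone for `R` -/
noncomputable def MM {n : ℕ} (P : (Fin n → ℕ) → Prop) (a b : ℕ) : Finset (Fin n → ℕ) := by
  classical
  exact (Fintype.piFinset fun _ => Finset.Icc a b).filter fun f => P f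

theorem mem_MM {n : ℕ} {P : (Fin n → ℕ) → Prop} {a b : ℕ} {f : Fin n → ℕ} :
    f ∈ MM P a b ↔ (∀ x, a ≤ f x ∧ f x ≤ b) ∧ P f := by
  classical
  unfold MM
  rw [Finset.mem_filter, Fintype.mem_piFinset]
  simp only [Finset.mem_Icc]

/-- Daykin: for a sublattice `P` -/
theorem MM_lc {n : ℕ} (P : (Fin n → ℕ) → Prop) (hs : ∀ f g, P f → P g → P (f ⊔ g))
    (hi : ∀ f g, P f → P g → P (f ⊓ g)) (m : ℕ) :
    (MM P 1 (m + 1)).card * (MM P 0 (m + 2)).card ≤ (MM P 0 (m + 1)).card * (MM P 1 (m + 2)).card := by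
  classical
  refine (Finset.le_card_infs_mul_card_sups (MM P 1 (m + 1)) (MM P 0 (m + 2))).trans ?_
  refine Nat.mul_le_mul (Finset.card_le_card ?_) (Finset.card_le_card ?_)
  · intro f hf
    rw [Finset.mem_infs] at hf
    obtain ⟨g, hg, k, hk, rfl⟩ := hf
    rw [mem_MM] at hg hk ⊢
    refine ⟨fun x => ?_, hi _ _ hg.2 hk.2⟩
    have h1 := hg.1 x
    have h2 := hk.1 x
    rw [Pi.inf_apply]
    refine ⟨Nat.zero_le _, inf_le_left.trans h1.2⟩
  · intro f hf
    rw [Finset.mem_sups] at hf
    obtain ⟨g, hg, k, hk, rfl⟩ := hf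
    rw [mem_MM] at hg hk ⊢
    refine ⟨fun x => ?_, hs _ _ hg.2 hk.2⟩
    have h1 := hg.1 x
    have h2 := hk.1 x
    rw [Pi.sup_apply]
    exact ⟨h1.1.trans le_sup_left, sup_le (by omega) h2.2⟩

/-- translation -/
theorem card_MM_shift {n : ℕ} (P : (Fin n → ℕ) → Prop)
    (hP : ∀ f : Fin n → ℕ, P f ↔ P (fun x => f x + 1)) (b : ℕ) :
    (MM P 1 (b + 1)).card = (MM P 0 b).card := by
  classical
  refine (Finset.card_bij (fun f _ => fun x => f x + 1) ?_ ?_ ?_).symm
  · intro f hf
    rw [mem_MM] at hf ⊢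
    exact ⟨fun x => ⟨Nat.le_add_left _ _, Nat.add_le_add_right (hf.1 x).2 1⟩, (hP f).1 hf.2⟩
  · intro f _ g _ h
    funext x
    have := congrFun h x
    simpa using this
  · intro f hf
    rw [mem_MM] at hf
    refine ⟨fun x => f x - 1, ?_, ?_⟩
    · rw [mem_MM]
      refine ⟨fun x => ⟨Nat.zero_le _, ?_⟩, ?_⟩
      · have := (hf.1 x).2
        show f x - 1 ≤ b
        omega
      · rw [hP]
        have : (fun x => f x - 1 + 1) = f := by
          funext x
          have := (hf.1 x).1
          omega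
        rw [this]
        exact hf.2
    · funext x
      have := (hf.1 x).1
      show f x - 1 + 1 = f x
      omega

/-- maps to `Fin (m + 1)` -/
theorem card_fin_MM {n : ℕ} (P : (Fin n → ℕ) → Prop) (m : ℕ)
    (S : Finset (Fin n → Fin (m + 1))) (hS : ∀ f, f ∈ S ↔ P fun x => (f x).val) :
    S.card = (MM P 0 m).card := by
  classical
  refine Finset.card_bij (fun f _ => fun x => (f x).val) ?_ ?_ ?_
  · intro f hf
    rw [mem_MM]
    exact ⟨fun x => ⟨Nat.zero_le _, Nat.lt_succ_iff.1 (f x).isLt⟩, (hS f).1 hf⟩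
  · intro f _ g _ h
    funext x
    exact Fin.ext (congrFun h x)
  · intro f hf
    rw [mem_MM] at hf
    refine ⟨fun x => ⟨f x, Nat.lt_succ_of_le (hf.1 x).2⟩, ?_, ?_⟩
    · rw [hS]
      exact hf.2
    · rfl

/-- general form -/
theorem lc_gen {n : ℕ} (P : (Fin n → ℕ) → Prop) (hs : ∀ f g, P f → P g → P (f ⊔ g))
    (hi : ∀ f g, P f → P g → P (f ⊓ g)) (hP : ∀ f : Fin n → ℕ, P f ↔ P (fun x => f x + 1)) (m : ℕ) :
    (MM P 0 m).card * (MM P 0 (m + 2)).card ≤ (MM P 0 (m + 1)).card * (MM P 0 (m + 1)).card := by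
  have h := MM_lc P hs hi m
  rw [card_MM_shift P hP m, card_MM_shift P hP (m + 1)] at h
  exact h

/-- log-concavity of the order polynomial at the integers -/
theorem Om_lc {n : ℕ} (Q : Rel n) (m : ℕ) : Om Q m * Om Q (m + 2) ≤ Om Q (m + 1) * Om Q (m + 1) := by
  classical
  have key : ∀ k, Om Q k = (MM (fun f : Fin n → ℕ => ∀ a b, Q a b → f a ≤ f b) 0 k).card := by
    intro k
    unfold Om
    refine card_fin_MM _ k _ ?_
    intro f
    rw [Finset.mem_filter]
    constructor
    · rintro ⟨_, h⟩ a b hab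
      exact Fin.le_def.1 (h a b hab)
    · intro h
      exact ⟨Finset.mem_univ _, fun a b hab => Fin.le_def.2 (h a b hab)⟩
  rw [key, key, key]
  refine lc_gen _ ?_ ?_ ?_ m
  · intro f g hf hg a b hab
    exact sup_le_sup (hf a b hab) (hg a b hab)
  · intro f g hf hg a b hab
    exact inf_le_inf (hf a b hab) (hg a b hab)
  · intro f
    constructor
    · intro h a b hab
      exact Nat.add_le_add_right (h a b hab) 1
    · intro h a b hab
      exact Nat.le_of_add_le_add_right (h a b hab)

/-- number of strictly order preserving maps of `Q` to `{0, …, m}` -/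
noncomputable def Os {n : ℕ} (Q : Rel n) (m : ℕ) : ℕ := by
  classical
  exact (Finset.univ.filter fun f : Fin n → Fin (m + 1) => ∀ a b, Q a b → f a < f b).card

/-- log-concavity of the strict order polynomial at the integers -/
theorem Os_lc {n : ℕ} (Q : Rel n) (m : ℕ) : Os Q m * Os Q (m + 2) ≤ Os Q (m + 1) * Os Q (m + 1) := by
  classical
  have key : ∀ k, Os Q k = (MM (fun f : Fin n → ℕ => ∀ a b, Q a b → f a < f b) 0 k).card := by
    intro k
    unfold Os
    refine card_fin_MM _ k _ ?_
    intro f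
    rw [Finset.mem_filter]
    constructor
    · rintro ⟨_, h⟩ a b hab
      exact Fin.lt_def.1 (h a b hab)
    · intro h
      exact ⟨Finset.mem_univ _, fun a b hab => Fin.lt_def.2 (h a b hab)⟩
  rw [key, key, key]
  refine lc_gen _ ?_ ?_ ?_ m
  · intro f g hf hg a b hab
    have h1 := hf a b hab
    have h2 := hg a b hab
    show max (f a) (g a) < max (f b) (g b)
    omega
  · intro f g hf hg a b hab
    have h1 := hf a b hab
    have h2 := hg a b hab
    show min (f a) (g a) < min (f b) (g b)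
    omega
  · intro f
    constructor
    · intro h a b hab
      exact Nat.add_lt_add_right (h a b hab) 1
    · intro h a b hab
      exact Nat.lt_of_add_lt_add_right (h a b hab)

end Pool.LA34
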