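import Pool.Agent.SC45.OmEq37
import Pool.Agent.LA34.OmLC

set_option autoImplicit false

/-!
# LA34/OmS: the fundamental theorem for the strict order polynomial
-/

namespace Pool.LA34

open Pool.HB45 Pool.SC45

/-- the reversed labels -/
def rl {N : ℕ} (lab : Fin (N + 1) → ℕ) (a : Fin (N + 1)) : ℕ := (∑ b, lab b) - lab a

theorem rl_lt {N : ℕ} (lab : Fin (N + 1) → ℕ) (a b : Fin (N + 1)) :
    rl lab a < rl lab b ↔ lab b < lab a := by
  have h1 : lab a ≤ ∑ b, lab b := Finset.single_le_sum (fun _ _ => Nat.zero_le _) (Finset.mem_univ a)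
  have h2 : lab b ≤ ∑ b, lab b := Finset.single_le_sum (fun _ _ => Nat.zero_le _) (Finset.mem_univ b)
  unfold rl
  omega

theorem rl_inj {N : ℕ} {lab : Fin (N + 1) → ℕ} (h : Function.Injective lab) :
    Function.Injective (rl lab) := by
  intro a b hab
  apply h
  have h1 := rl_lt lab a b
  have h2 := rl_lt lab b a
  omega

theorem des_rl {N : ℕ} {lab : Fin (N + 1) → ℕ} (h : Function.Injective lab)
    (g : Equiv.Perm (Fin (N + 1))) : des (rl lab) g + des lab g = N := by
  classical
  have hne : ∀ i : Fin N, lab (g i.castSucc) ≠ lab (g i.succ) := by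
    intro i hi
    have h1 := g.injective (h hi)
    have h2 := congrArg Fin.val h1
    simp at h2
  have h1 : (Finset.univ.filter fun i : Fin N => rl lab (g i.succ) < rl lab (g i.castSucc)) =
      Finset.univ.filter fun i : Fin N => ¬ lab (g i.succ) < lab (g i.castSucc) := by
    apply Finset.filter_congr
    intro i _
    rw [rl_lt]
    have := hne i
    omega
  unfold des
  rw [h1, add_comm, Finset.card_filter_add_card_filter_not]
  simp

theorem Os_eq_rl {N : ℕ} {Q : Rel (N + 1)} {lab : Fin (N + 1) → ℕ} (hn : Nat' Q lab) (m : ℕ) :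
    Os Q m = ∑ g ∈ LE Q, (m + N + 1 - des (rl lab) g).choose (N + 1) := by
  classical
  have hinj := rl_inj hn.inj
  have hOm : Os Q m = (Finset.univ.filter fun f : Fin (N + 1) → Fin (m + 1) =>
      ∀ a b, Q a b → f a < f b).card := by
    unfold Os
    congr
  rw [hOm]
  rw [Finset.card_eq_sum_card_fiberwise (f := fun f => Tuple.sort (omKey (rl lab) f)) (t := LE Q)]
  · apply Finset.sum_congr rfl
    intro g hg
    rw [mem_LE] at hg
    set d : ℕ → ℕ := fun j => if h : j < N then
      (if rl lab (g (⟨j, h⟩ : Fin N).succ) < rl lab (g (⟨j, h⟩ : Fin N).castSucc) then 1 else 0) else 0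
      with hd
    have hd1 : ∀ i, d i ≤ 1 := by
      intro i
      simp only [hd]
      split_ifs <;> omega
    have hdi : ∀ i : Fin N, d i.val =
        if rl lab (g i.succ) < rl lab (g i.castSucc) then 1 else 0 := by
      intro i
      simp only [hd]
      rw [dif_pos i.isLt]
    have hdes : des (rl lab) g = ∑ j ∈ Finset.range N, d j := by
      unfold des
      rw [Finset.card_filter, ← Fin.sum_univ_eq_sum_range]
      exact Finset.sum_congr rfl fun i _ => (hdi i).symm
    rw [hdes, ← omEq_count N m d hd1]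
    refine Finset.card_bij (fun f _ => f ∘ g) ?_ ?_ ?_
    · intro f hf
      rw [Finset.mem_filter, Finset.mem_filter] at hf
      rw [Finset.mem_filter]
      refine ⟨Finset.mem_univ _, ?_⟩
      have h1 := (omKey_strict (rl lab) hinj f g).1 ((omKey_sort (rl lab) hinj f g).1 hf.2)
      intro i
      rw [hdi]
      exact h1 i
    · intro f _ f' _ h
      funext a
      have := congrFun h (g.symm a)
      simpa using this
    · intro u hu
      rw [Finset.mem_filter] at hu
      have hcomp : (u ∘ g.symm) ∘ g = u := by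
        funext i
        simp
      have hs : StrictMono (omKey (rl lab) (u ∘ g.symm) ∘ g) := by
        rw [omKey_strict (rl lab) hinj]
        intro i
        have := hu.2 i
        rw [hdi] at this
        simpa using this
      refine ⟨u ∘ g.symm, ?_, hcomp⟩
      rw [Finset.mem_filter, Finset.mem_filter]
      refine ⟨⟨Finset.mem_univ _, ?_⟩, (omKey_sort (rl lab) hinj _ g).2 hs⟩
      intro a b hab
      have h1 : g.symm a < g.symm b := hg _ _ (by simpa using hab)
      have h2 := hs h1
      simp only [Function.comp_apply, Equiv.apply_symm_apply] at h2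
      rw [omKey_lt] at h2
      rcases h2 with h2 | h2
      · exact h2
      · exfalso
        have h3 := (rl_lt lab a b).1 h2.2
        have h4 := hn.mono _ _ hab
        omega
  · intro f hf
    rw [Finset.mem_coe, Finset.mem_filter] at hf
    rw [Finset.mem_coe, mem_LE]
    intro i j hij
    have hs := (omKey_sort (rl lab) hinj f _).1 rfl
    rw [← hs.lt_iff_lt]
    show omKey (rl lab) f _ < omKey (rl lab) f _
    rw [omKey_lt]
    exact Or.inl (hf.2 _ _ hij)

/-- `Ω°(m + 1) = ∑ C(m + 1 + des g, n)` -/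
theorem Os_eq {N : ℕ} {Q : Rel (N + 1)} {lab : Fin (N + 1) → ℕ} (hn : Nat' Q lab) (m : ℕ) :
    Os Q m = ∑ g ∈ LE Q, (m + 1 + des lab g).choose (N + 1) := by
  rw [Os_eq_rl hn]
  apply Finset.sum_congr rfl
  intro g _
  have h := des_rl hn.inj g
  congr 1
  omega

/-- halving: `F + κ` has jumps at least `2`, so `⌊(F + κ)/2⌋` is strict -/
theorem Os_half {n l : ℕ} {Q : Rel n} {κ : Fin n → ℕ} (hκ : Lev (l + 1) Q κ) (t : ℕ) :
    Os Q (l + t) ≤ 2 ^ n * Os Q (l + t / 2) := by
  classical
  have hcard : 2 ^ n * Os Q (l + t / 2) = ((Finset.univ : Finset (Fin n → Fin 2)) ×ˢ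
      (Finset.univ.filter fun f : Fin n → Fin (l + t / 2 + 1) => ∀ a b, Q a b → f a < f b)).card := by
    rw [Finset.card_product, Finset.card_univ, Fintype.card_fun, Fintype.card_fin, Fintype.card_fin]
    unfold Os
    congr!
  rw [hcard]
  unfold Os
  have hdiv : ∀ (F : Fin n → Fin (l + t + 1)) (a : Fin n),
      ((F a).val + κ a) / 2 < l + t / 2 + 1 := by
    intro F a
    have h1 := (F a).isLt
    have h2 := hκ.lt a
    omega
  refine Finset.card_le_card_of_injOn
    (fun F => ((fun a => ⟨((F a).val + κ a) % 2, Nat.mod_lt _ (by norm_num)⟩),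
      fun a => ⟨((F a).val + κ a) / 2, hdiv F a⟩)) ?_ ?_
  · intro F hF
    have hF' := (Finset.mem_filter.1 hF).2
    rw [Finset.mem_coe, Finset.mem_product]
    refine ⟨Finset.mem_univ _, Finset.mem_filter.2 ⟨Finset.mem_univ _, ?_⟩⟩
    intro a b hab
    have h1 := Fin.lt_def.1 (hF' a b hab)
    have h2 := hκ.mono a b hab
    rw [Fin.lt_def]
    show ((F a).val + κ a) / 2 < ((F b).val + κ b) / 2
    omega
  · intro F _ F' _ h
    simp only [Prod.mk.injEq] at h
    obtain ⟨h1, h2⟩ := h
    funext a
    have e1 := congrArg Fin.val (congrFun h1 a)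
    have e2 := congrArg Fin.val (congrFun h2 a)
    simp only at e1 e2
    apply Fin.ext
    omega

/-- the weak analogue -/
theorem Om_half {n : ℕ} (Q : Rel n) (t : ℕ) : Om Q t ≤ 2 ^ n * Om Q (t / 2) := by
  classical
  have hcard : 2 ^ n * Om Q (t / 2) = ((Finset.univ : Finset (Fin n → Fin 2)) ×ˢ
      (Finset.univ.filter fun f : Fin n → Fin (t / 2 + 1) => ∀ a b, Q a b → f a ≤ f b)).card := by
    rw [Finset.card_product, Finset.card_univ, Fintype.card_fun, Fintype.card_fin, Fintype.card_fin]
    unfold Om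
    congr!
  rw [hcard]
  unfold Om
  have hdiv : ∀ (F : Fin n → Fin (t + 1)) (a : Fin n), (F a).val / 2 < t / 2 + 1 := by
    intro F a
    have h1 := (F a).isLt
    omega
  refine Finset.card_le_card_of_injOn
    (fun F => ((fun a => ⟨(F a).val % 2, Nat.mod_lt _ (by norm_num)⟩),
      fun a => ⟨(F a).val / 2, hdiv F a⟩)) ?_ ?_
  · intro F hF
    have hF' := (Finset.mem_filter.1 hF).2
    rw [Finset.mem_coe, Finset.mem_product]
    refine ⟨Finset.mem_univ _, Finset.mem_filter.2 ⟨Finset.mem_univ _, ?_⟩⟩
    intro a b hab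
    have h1 := Fin.le_def.1 (hF' a b hab)
    rw [Fin.le_def]
    show (F a).val / 2 ≤ (F b).val / 2
    omega
  · intro F _ F' _ h
    simp only [Prod.mk.injEq] at h
    obtain ⟨h1, h2⟩ := h
    funext a
    have e1 := congrArg Fin.val (congrFun h1 a)
    have e2 := congrArg Fin.val (congrFun h2 a)
    simp only at e1 e2
    apply Fin.ext
    omega

end Pool.LA34
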